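import Pool.Agent.EssMap.Fin

/-!
# Essential maps and strongly scale-invariant Poincare duality groups
-/

namespace Pool.Agent.Results.MP_b811c3_gt.EssentialMaps

open EssMap

theorem result {Q : Type} [Group Q] {n : ℕ} (hQ : Dual n Q) (φ : Q →* Q)
    (hinj : Function.Injective φ) (hfin : φ.range.FiniteIndex)
    (hcap : ∀ q : Q, (∀ k : ℕ, q ∈ Set.range (φ^[k])) → q = 1)
    (Q' : Subgroup Q) (hQ' : Q'.FiniteIndex) (T : Type) [Group T] (f : Q' →* T)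
    (T₀ : Subgroup T) (hT₀ : T₀.FiniteIndex) (hnt : Nontrivial T₀) (hT2 : TorFree T₀)
    (hT : EqNoeth T₀) (j : ℕ) (hj : j = n ∨ j + 1 = n)
    (τ : HZ T j) (hτ : NonTors (pull f j τ)) :
    ∃ G : Subgroup Q, G.FiniteIndex ∧ (∀ g : G, g ≠ 1 → ∃ h : G →* T₀, h g ≠ 1) ∧
      (Group.IsNilpotent T₀ → Group.IsNilpotent G) ∧
      (Group.IsSolvable T₀ → Group.IsSolvable G) :=
  final hQ φ hinj hfin hcap Q' hQ' T f T₀ hT₀ hnt hT2 hT j hj τ hτ

end Pool.Agent.Results.MP_b811c3_gt.EssentialMaps
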