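import Pool.Agent.BCX.D3

/-!
# Strongly scale-invariant Poincare duality groups of dimension three
-/

namespace Pool.Agent.Results.MP_b811c3_gt.FormalDimensionThree

open EssMap

theorem result {Q : Type} [Group Q] (hQ : Dual 3 Q)
    (hfp : Group.IsFinitelyPresented Q) (φ : Q →* Q)
    (hinj : Function.Injective φ) (hfin : φ.range.FiniteIndex)
    (hcap : ∀ q : Q, (∀ k : ℕ, q ∈ Set.range (φ^[k])) → q = 1) :
    ∃ N : Subgroup Q, N.FiniteIndex ∧ Group.IsNilpotent N :=
  BCX.dim3 hQ hfp φ hinj hfin hcap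

end Pool.Agent.Results.MP_b811c3_gt.FormalDimensionThree
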