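import Pool.Agent.NFB.Tow

/-!
# Strongly scale-invariant groups with a series of virtually polycyclic or co-Hopfian factors
-/

namespace Pool.Agent.Results.MP_b811c3_gt.NilpotentFibre

open EssMap

/-- `M` is virtually polycyclic: it has a solvable subgroup of finite index and all its subgroups
are finitely generated. -/
def VirtuallyPolycyclic {Q : Type} [Group Q] (M : Subgroup Q) : Prop :=
  (∃ S : Subgroup Q, S ≤ M ∧ S.relIndex M ≠ 0 ∧ Group.IsSolvable S) ∧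
    ∀ K : Subgroup Q, K ≤ M → K.FG

/-- Every injective endomorphism of `G` with image of finite index is onto. -/
def FinitelyCoHopfian (G : Type) [Group G] : Prop :=
  ∀ ψ : G →* G, Function.Injective ψ → ψ.range.FiniteIndex → Function.Surjective ψ

/-- `L` is normal in `P` and `P / L` is virtually polycyclic. -/
def PolycyclicFactor {Q : Type} [Group Q] (L P : Subgroup Q) : Prop :=
  ∃ _ : (L.subgroupOf P).Normal, VirtuallyPolycyclic (⊤ : Subgroup (P ⧸ L.subgroupOf P))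

/-- `L` is normal in `P` and `P / L` is finitely co-Hopfian. -/
def CoHopfianFactor {Q : Type} [Group Q] (L P : Subgroup Q) : Prop :=
  ∃ _ : (L.subgroupOf P).Normal, FinitelyCoHopfian (P ⧸ L.subgroupOf P)

/-- `L` is normal in `P` and `φ(P) L = P`. -/
def OntoFactor {Q : Type} [Group Q] (φ : Q →* Q) (L P : Subgroup Q) : Prop :=
  (L.subgroupOf P).Normal ∧ P.map φ ⊔ L = P

theorem result {Q : Type} [Group Q] (φ : Q →* Q) (hinj : Function.Injective φ)
    (hfin : φ.range.FiniteIndex)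
    (hcap : ∀ q : Q, (∀ k : ℕ, q ∈ Set.range (φ^[k])) → q = 1)
    (r : ℕ) (M : ℕ → Subgroup Q)
    (h0 : ((M 0).comap φ = M 0 ∧
        (VirtuallyPolycyclic (M 0) ∨ (Dual 3 (M 0) ∧ Group.IsFinitelyPresented (M 0)))) ∨
      ((M 0).Normal ∧ VirtuallyPolycyclic (M 0) ∧
        ∀ N : Subgroup Q, N.Normal → VirtuallyPolycyclic N → N ≤ M 0))
    (hM : ∀ i < r, M i ≤ M (i + 1) ∧ (M (i + 1)).FG ∧
      (((M (i + 1)).comap φ = M (i + 1) ∧
          (PolycyclicFactor (M i) (M (i + 1)) ∨ CoHopfianFactor (M i) (M (i + 1)))) ∨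
        OntoFactor φ (M i) (M (i + 1)))) :
    (∀ i ≤ r, (M i).comap φ = M i ∧ VirtuallyPolycyclic (M i)) ∧
    (∀ i < r, CoHopfianFactor (M i) (M (i + 1)) ∨ OntoFactor φ (M i) (M (i + 1)) →
      (M i).relIndex (M (i + 1)) ≠ 0) := by
  have h1 : ∀ i ≤ r, (M i).comap φ = M i ∧ VirtuallyPolycyclic (M i) := by
    intro i
    induction i with
    | zero =>
      intro _
      rcases h0 with ⟨h2, h3 | ⟨h3, h4⟩⟩ | ⟨h2, h3, h4⟩
      · exact ⟨h2, h3⟩
      · exact ⟨h2, NFB.vpoly_of_dual φ hinj hfin hcap (M 0) h2 h3 h4⟩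
      · exact ⟨NFB.comap_eq_of_max φ hinj hfin (M 0) h3 h4, h3⟩
    | succ i ih =>
      intro hi
      obtain ⟨h2, h3⟩ := ih (Nat.le_of_succ_le hi)
      obtain ⟨h4, h5, ⟨h6, ⟨h7, h8⟩ | ⟨h7, h8⟩⟩ | ⟨h7, h8⟩⟩ := hM i hi
      · exact ⟨h6, NFB.step_poly (M i) (M (i + 1)) h3 h4 h8⟩
      · exact ⟨h6, (NFB.step_coh φ hinj hfin hcap (M i) (M (i + 1)) h3 h2 h4 h5 h6 h8).2⟩
      · have h9 := NFB.step_onto φ hinj hcap (M i) (M (i + 1)) h3 h2 h4 h5 h8
        exact ⟨h9.1, h9.2.2⟩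
  refine ⟨h1, fun i hi h => ?_⟩
  obtain ⟨h2, h3⟩ := h1 i hi.le
  obtain ⟨h4, h5, -⟩ := hM i hi
  rcases h with ⟨h7, h8⟩ | ⟨h7, h8⟩
  · exact (NFB.step_coh φ hinj hfin hcap (M i) (M (i + 1)) h3 h2 h4 h5 (h1 (i + 1) hi).1 h8).1
  · exact (NFB.step_onto φ hinj hcap (M i) (M (i + 1)) h3 h2 h4 h5 h8).2.1

end Pool.Agent.Results.MP_b811c3_gt.NilpotentFibre
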