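import Pool.Agent.BCX.Vx4

/-!
# Virtual nilpotency of strongly scale-invariant groups, prime by prime
-/

namespace Pool.Agent.Results.MP_b811c3_gt.UnitQuotients

open EssMap BCX

/-- `X` is a normal subgroup of finite index with `φ X ≤ X` -/
def Invariant {Q : Type} [Group Q] (φ : Q →* Q) (X : Subgroup Q) : Prop :=
  X.Normal ∧ X.FiniteIndex ∧ ∀ x ∈ X, φ x ∈ X

/-- for all `k` the kernel of `φ ^ k` on `X / γ_{c+1}(X)` is finite of order not divisible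
by `p ^ B` -/
def SmallKernels {Q : Type} [Group Q] (φ : Q →* Q) (X : Subgroup Q) (p c B : ℕ) : Prop :=
  ∀ k : ℕ, ¬ p ^ B ∣ (X.lowerCentralSeries c).relIndex
    (X ⊓ (X.lowerCentralSeries c).comap (itr φ k))

/-- condition (K) at the prime `p`, with the class `c` -/
def Horizontal {Q : Type} [Group Q] (φ : Q →* Q) (p c : ℕ) : Prop :=
  ∃ Q₀ : Subgroup Q, Q₀.FiniteIndex ∧ ∃ B : ℕ, ∀ X : Subgroup Q, Invariant φ X → X ≤ Q₀ →
    SmallKernels φ X p c B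

/-- condition (V) at the prime `p`, for the subgroup `X` -/
def Vertical {Q : Type} [Group Q] (φ : Q →* Q) (X : Subgroup Q) (p : ℕ) : Prop :=
  ∃ B : ℕ, ∀ n : ℕ, ∃ c : ℕ, n ≤ c ∧ SmallKernels φ X p c B

theorem result {Q : Type} [Group Q] (hfg : Group.FG Q) (φ : Q →* Q)
    (hinj : Function.Injective φ) (hfin : φ.range.FiniteIndex)
    (hcap : ∀ q : Q, (∀ k : ℕ, q ∈ Set.range (φ^[k])) → q = 1) :
    ((∃ N : Subgroup Q, N.FiniteIndex ∧ Group.IsNilpotent N) ↔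
      ∀ Q₀ : Subgroup Q, Q₀.FiniteIndex → ∃ X : Subgroup Q, X ≤ Q₀ ∧ Invariant φ X ∧
        ∀ p : ℕ, p.Prime → p ∣ φ.range.index →
          (∃ c : ℕ, 1 ≤ c ∧ Horizontal φ p c) ∨ Vertical φ X p ∨
          (∀ Q₁ : Subgroup Q, Q₁.FiniteIndex → ∃ (Z : Subgroup Q) (hZ : ∀ x ∈ Z, φ x ∈ Z),
            Z ≤ Q₁ ∧ Z.FiniteIndex ∧
            ((∃ B : ℕ, ∀ V : Subgroup Z, V.Normal → V.comap (rst φ Z hZ) = V →
                ∀ b : ℕ, V.index = p ^ b → b ≤ B) ∨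
              (∃ n : ℕ, 0 < n ∧ Dual n Z ∧ Ori n Z = ⊤ ∧ EulerP n p (rst φ Z hZ))))) ∧
    ∀ c : ℕ, 1 ≤ c →
      ((∃ N : Subgroup Q, N.FiniteIndex ∧ N.lowerCentralSeries c = ⊥) ↔
        ∀ p : ℕ, p.Prime → p ∣ φ.range.index → Horizontal φ p c) := by
  have hor : ∀ p c : ℕ, (∃ Q₀ : Subgroup Q, Q₀.FiniteIndex ∧ ∃ B : ℕ,
      INJN.KerBddN φ c B p Q₀) ↔ Horizontal φ p c := by
    intro p c
    constructor
    · rintro ⟨Q₀, h1, B, h2⟩
      exact ⟨Q₀, h1, B, fun X hX hle k => h2 X hX.1 hX.2.1 hle hX.2.2 k⟩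
    · rintro ⟨Q₀, h1, B, h2⟩
      exact ⟨Q₀, h1, B, fun X h3 h4 h5 h6 k => h2 X ⟨h3, h4, h6⟩ h5 k⟩
  constructor
  · refine (nilp_iffV hfg φ hinj hfin hcap).trans ?_
    constructor
    · intro h Q₀ hQ₀
      obtain ⟨X, h1, h2, h3, h4, h5⟩ := h Q₀ hQ₀
      refine ⟨X, h1, ⟨h2, h3, h4⟩, fun p hp hpD => ?_⟩
      rcases h5 p hp hpD with ⟨Q', h6, c, hc, h7⟩ | h6 | h6
      · exact Or.inl ⟨c, hc, (hor p c).1 ⟨Q', h6, h7⟩⟩
      · exact Or.inr (Or.inl h6)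
      · exact Or.inr (Or.inr h6)
    · intro h Q₀ hQ₀
      obtain ⟨X, h1, ⟨h2, h3, h4⟩, h5⟩ := h Q₀ hQ₀
      refine ⟨X, h1, h2, h3, h4, fun p hp hpD => ?_⟩
      rcases h5 p hp hpD with ⟨c, hc, h7⟩ | h6 | h6
      · obtain ⟨Q', h6, h8⟩ := (hor p c).2 h7
        exact Or.inl ⟨Q', h6, c, hc, h8⟩
      · exact Or.inr (Or.inl h6)
      · exact Or.inr (Or.inr h6)
  · intro c hc
    refine (nilp_iffC hfg φ hinj hfin hcap c hc).trans ?_
    exact forall_congr' fun p => forall_congr' fun _ => forall_congr' fun _ => hor p c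

end Pool.Agent.Results.MP_b811c3_gt.UnitQuotients
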